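import Pool.Agent.H95.GY.Targets

/-! # MET: compact groups have small normal subgroups with second countable quotient -/

set_option autoImplicit false

open Filter Topology Set

universe u

namespace Pool.Agent.H12.GY

open Pool.Agent.H95.GY

theorem pf_MET : T_MET.{u} := by
  intro E _ _ _ _ _ U hU
  have h1 : (1 : E) ∈ interior U := mem_interior_iff_mem_nhds.2 hU
  obtain ⟨f, hf0, hf1, -⟩ := exists_continuous_zero_one_of_isClosed
    (s := (interior U)ᶜ) (t := {(1 : E)}) isOpen_interior.isClosed_compl isClosed_singleton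
    (by rw [Set.disjoint_singleton_right]; exact fun h => h h1)
  let N : Subgroup E :=
    { carrier := {x | ∀ a b, f (a * x * b) = f (a * b)}
      one_mem' := fun a b => by rw [mul_one]
      mul_mem' := fun {x y} hx hy a b => by
        rw [← mul_assoc, hy (a * x) b, hx a b]
      inv_mem' := fun {x} hx a b => by
        have h2 := hx (a * x⁻¹) b
        rw [inv_mul_cancel_right] at h2
        exact h2.symm }
  have hN : ∀ x, x ∈ N ↔ ∀ a b, f (a * x * b) = f (a * b) := fun _ => Iff.rfl
  have hnormal : N.Normal := ⟨fun x hx g => by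
    rw [hN]
    intro a b
    have h2 := (hN x).1 hx (a * g) (g⁻¹ * b)
    have h3 : a * (g * x * g⁻¹) * b = a * g * x * (g⁻¹ * b) := by group
    have h4 : a * g * (g⁻¹ * b) = a * b := by group
    rw [h3, h2, h4]⟩
  have hclosed : IsClosed (N : Set E) := by
    have h2 : (N : Set E) = ⋂ (a : E) (b : E), {x | f (a * x * b) = f (a * b)} := by
      ext x
      simp only [mem_iInter, Set.mem_ofPred_eq]
      exact hN x
    rw [h2]
    refine isClosed_iInter fun a => isClosed_iInter fun b => isClosed_eq ?_ continuous_const
    exact f.continuous.comp ((continuous_const.mul continuous_id).mul continuous_const)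
  have hsub : (N : Set E) ⊆ U := by
    intro x hx
    by_contra hxU
    have h2 := (hN x).1 hx 1 1
    rw [one_mul, mul_one, mul_one] at h2
    have h3 : f x = 0 := hf0 fun h => hxU (interior_subset h)
    have h4 : f 1 = 1 := hf1 rfl
    rw [h3, h4] at h2
    exact zero_ne_one h2
  refine ⟨N, hnormal, hclosed, hsub, ?_⟩
  -- the map to `C(E × E, ℝ)`
  let F0 : C(E × (E × E), ℝ) := ⟨fun p => f (p.2.1 * p.1 * p.2.2), by
    refine f.continuous.comp ?_
    exact ((continuous_fst.comp continuous_snd).mul continuous_fst).mul
      (continuous_snd.comp continuous_snd)⟩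
  let F : C(E, C(E × E, ℝ)) := F0.curry
  have hF : ∀ x a b, F x (a, b) = f (a * x * b) := fun _ _ _ => rfl
  have hFN : ∀ x y, F x = F y ↔ x⁻¹ * y ∈ N := by
    intro x y
    constructor
    · intro h
      rw [hN]
      intro a b
      have h2 := congrArg (fun g : C(E × E, ℝ) => g (a * x⁻¹, b)) h
      simp only [hF] at h2
      rw [inv_mul_cancel_right] at h2
      rw [h2, mul_assoc a x⁻¹ y]
    · intro h
      ext ⟨a, b⟩
      rw [hF, hF]
      have h2 := (hN _).1 h (a * x) b
      have h3 : a * x * (x⁻¹ * y) * b = a * y * b := by group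
      rw [h3] at h2
      exact h2.symm
  let F' : E ⧸ N → C(E × E, ℝ) := fun q => Quotient.liftOn' q F fun x y h =>
    (hFN x y).2 (QuotientGroup.leftRel_apply.1 h)
  have hF'mk : ∀ x : E, F' (QuotientGroup.mk x) = F x := fun _ => rfl
  have hF'c : Continuous F' := by
    have h2 : Continuous (F' ∘ (QuotientGroup.mk : E → E ⧸ N)) := F.continuous
    exact (QuotientGroup.isQuotientMap_mk N).continuous_iff.2 h2
  have hF'i : Function.Injective F' := by
    intro p q
    refine Quotient.inductionOn₂' p q fun x y h => ?_
    exact QuotientGroup.eq.2 ((hFN x y).1 h)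
  haveI : CompactSpace (E ⧸ N) := inferInstance
  have hemb : IsClosedEmbedding F' := hF'c.isClosedEmbedding hF'i
  haveI : TopologicalSpace.PseudoMetrizableSpace (E ⧸ N) :=
    hemb.isEmbedding.isInducing.pseudoMetrizableSpace
  letI : PseudoMetricSpace (E ⧸ N) := TopologicalSpace.pseudoMetrizableSpacePseudoMetric (E ⧸ N)
  exact EMetric.secondCountable_of_sigmaCompact (E ⧸ N)

end Pool.Agent.H12.GY
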