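import Pool.Agent.H95.GY.Targets
import Pool.Agent.H78.CM.Asm

/-! # PWK: a compact group has orthogonal representations with small kernel -/

set_option autoImplicit false

open Filter Topology Set

universe u

namespace Pool.Agent.H12.GY

open Pool.Agent.H95.GY

/-- there is an orthogonal representation which is nontrivial at all points of `S` -/
def HasRep (E : Type u) [Group E] [TopologicalSpace E] (S : Set E) : Prop :=
  ∃ (m : ℕ) (σ : E →* Matrix (Fin m) (Fin m) ℝ), Continuous σ ∧
    (∀ g, (σ g).transpose * σ g = 1) ∧ ∀ g ∈ S, σ g ≠ 1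

/-- direct sum of two representations -/
noncomputable def dsum {E : Type u} [Group E] {m n : ℕ} (σ : E →* Matrix (Fin m) (Fin m) ℝ)
    (τ : E →* Matrix (Fin n) (Fin n) ℝ) : E →* Matrix (Fin (m + n)) (Fin (m + n)) ℝ where
  toFun g := (Matrix.fromBlocks (σ g) 0 0 (τ g)).submatrix finSumFinEquiv.symm finSumFinEquiv.symm
  map_one' := by
    rw [map_one, map_one, Matrix.fromBlocks_one, Matrix.submatrix_one_equiv]
  map_mul' g h := by
    rw [Matrix.submatrix_mul_equiv, Matrix.fromBlocks_multiply, map_mul, map_mul]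
    simp

theorem dsum_apply {E : Type u} [Group E] {m n : ℕ} (σ : E →* Matrix (Fin m) (Fin m) ℝ)
    (τ : E →* Matrix (Fin n) (Fin n) ℝ) (g : E) : dsum σ τ g =
    (Matrix.fromBlocks (σ g) 0 0 (τ g)).submatrix finSumFinEquiv.symm finSumFinEquiv.symm := rfl

theorem dsum_eq_one {E : Type u} [Group E] {m n : ℕ} (σ : E →* Matrix (Fin m) (Fin m) ℝ)
    (τ : E →* Matrix (Fin n) (Fin n) ℝ) (g : E) (h : dsum σ τ g = 1) : σ g = 1 ∧ τ g = 1 := by
  have h1 := congrArg (fun M : Matrix (Fin (m + n)) (Fin (m + n)) ℝ =>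
    M.submatrix finSumFinEquiv finSumFinEquiv) h
  simp only [dsum_apply, Matrix.submatrix_submatrix, Equiv.symm_comp_self,
    Matrix.submatrix_id_id, Matrix.submatrix_one_equiv] at h1
  rw [← Matrix.fromBlocks_one] at h1
  obtain ⟨h2, -, -, h3⟩ := Matrix.fromBlocks_inj.1 h1
  exact ⟨h2, h3⟩

theorem HasRep.union {E : Type u} [Group E] [TopologicalSpace E] {S T : Set E}
    (hS : HasRep E S) (hT : HasRep E T) : HasRep E (S ∪ T) := by
  obtain ⟨m, σ, hσ, hσo, hσS⟩ := hS
  obtain ⟨n, τ, hτ, hτo, hτT⟩ := hT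
  refine ⟨m + n, dsum σ τ, ?_, ?_, ?_⟩
  · show Continuous fun g => (Matrix.fromBlocks (σ g) 0 0 (τ g)).submatrix
      finSumFinEquiv.symm finSumFinEquiv.symm
    exact (Continuous.matrix_fromBlocks hσ continuous_const continuous_const hτ).matrix_submatrix
      _ _
  · intro g
    rw [dsum_apply, Matrix.transpose_submatrix, Matrix.submatrix_mul_equiv,
      Matrix.fromBlocks_transpose, Matrix.fromBlocks_multiply]
    simp only [Matrix.transpose_zero, Matrix.mul_zero, Matrix.zero_mul, add_zero, zero_add,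
      hσo, hτo]
    rw [Matrix.fromBlocks_one, Matrix.submatrix_one_equiv]
  · intro g hg h
    obtain ⟨h1, h2⟩ := dsum_eq_one σ τ g h
    rcases hg with hg | hg
    · exact hσS g hg h1
    · exact hτT g hg h2

theorem pf_PWK (hMET : T_MET.{u}) : T_PWK.{u} := by
  intro E _ _ _ _ _ U hU
  have hU' : interior U ∈ 𝓝 (1 : E) := interior_mem_nhds.2 hU
  obtain ⟨N, hNn, hNc, hNU, hsc⟩ := hMET E (interior U) hU'
  have hrep : HasRep E (interior U)ᶜ := by
    refine IsCompact.induction_on (isOpen_interior.isClosed_compl.isCompact :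
      IsCompact ((interior U)ᶜ : Set E)) (p := HasRep E) ?_ ?_ ?_ ?_
    · exact ⟨0, 1, continuous_const, fun g => by simp, fun g hg => absurd hg (by simp)⟩
    · rintro S T hST ⟨m, σ, h1, h2, h3⟩
      exact ⟨m, σ, h1, h2, fun g hg => h3 g (hST hg)⟩
    · intro S T hS hT
      exact hS.union hT
    · intro x hx
      have hk : (QuotientGroup.mk x : E ⧸ N) ≠ 1 := by
        intro h
        have h1 : x ∈ N := (QuotientGroup.eq_one_iff x).1 h
        exact hx (hNU h1)
      have hT2 : T2Space (E ⧸ N) := by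
        have := hNc
        infer_instance
      obtain ⟨m, σ, hσ, hσo, hσk⟩ := Pool.Agent.H78.CM.pw_all (E ⧸ N) (QuotientGroup.mk x) hk
      have hc : Continuous fun y : E => σ (QuotientGroup.mk y) :=
        hσ.comp QuotientGroup.continuous_mk
      refine ⟨{y | σ (QuotientGroup.mk y) ≠ 1}, ?_, m + 1, σ.comp (QuotientGroup.mk' N), ?_, ?_, ?_⟩
      · apply mem_nhdsWithin_of_mem_nhds
        exact (isOpen_ne.preimage hc).mem_nhds hσk
      · exact hc
      · intro g
        exact hσo _
      · intro g hg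
        exact hg
  obtain ⟨m, σ, h1, h2, h3⟩ := hrep
  refine ⟨m, σ, h1, h2, fun g hg => ?_⟩
  by_contra hgU
  exact h3 g (fun h => hgU (interior_subset h)) hg

end Pool.Agent.H12.GY
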